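import Pool.Agent.X119.Cong

/-!
# The conjectured congruence for `S_2` fails for `p = 7`
-/

set_option autoImplicit false

namespace Pool.Agent.Results.MP_fc29f1_nt.FailsAtSeven

open Finset Pool.Agent.X119.Cong

/-- `S_1` -/
def S1 (p : ℕ) : ℚ := ∑ k ∈ range p, binom (-1 / 2) k * binom (-1 / 3) k * (-3) ^ k

/-- `S_2` -/
def S2 (p : ℕ) : ℚ := ∑ k ∈ range p, binom (-1 / 2) k * binom (-1 / 3) k / (-27) ^ k

/-- `S_3` -/
def S3 (p : ℕ) : ℚ := ∑ k ∈ range p, binom (-1 / 2) k * binom (-2 / 3) k / (-4) ^ k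

/-- `S_4` -/
def S4 (p : ℕ) : ℚ := ∑ k ∈ range p, binom (-1 / 2) k * binom (-1 / 3) k / 5 ^ k

/-- `S_5` -/
def S5 (p : ℕ) : ℚ := ∑ k ∈ range p, binom (-1 / 2) k * binom (-1 / 3) k * 2 ^ k

/-- (a) for the prime `p` -/
def StatementA (p : ℕ) : Prop :=
  p % 3 = 1 → ∀ A B : ℤ, (p : ℤ) = A ^ 2 + 3 * B ^ 2 → 3 ∣ A - 1 →
    Cong p 2 (S1 p) (2 * A - p / (2 * A)) ∧ Cong p 2 (S2 p) (2 * A - p / (2 * A)) ∧
    Cong p 2 (S3 p) (2 * A - p / (2 * A)) ∧ Cong p 2 (jacobiSym p 5 * S4 p) (2 * A - p / (2 * A)) ∧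
    Cong p 2 (jacobiSym (-1) p * S5 p) (2 * A - p / (2 * A))

/-- (b) for the prime `p` -/
def StatementB (p : ℕ) : Prop :=
  p % 3 = 2 → Cong p 1 (S1 p) 0 ∧ Cong p 1 (S2 p) 0 ∧ Cong p 1 (S3 p) 0 ∧ Cong p 1 (S4 p) 0 ∧ Cong p 1 (S5 p) 0

/-- (a) fails for `p = 7`: the sum `S_2` is not congruent to `2 A - p / (2 A)`, `A = -2`, modulo `49`. Hence it is false that
(a) and (b) hold for every prime `p > 5`. -/
theorem result :
    ¬ Cong 7 2 (S2 7) (2 * (-2) - 7 / (2 * (-2))) ∧ ¬ StatementA 7 ∧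
    ¬ ∀ p : ℕ, p.Prime → 5 < p → StatementA p ∧ StatementB p := by
  have h1 : ¬ Cong 7 2 (S2 7) (2 * (-2) - 7 / (2 * (-2))) := not_cong (by decide +kernel)
  have h2 : ¬ StatementA 7 := by
    intro h
    have h3 := (h (by norm_num) (-2) 1 (by norm_num) (by norm_num)).2.1
    apply h1
    push_cast at h3
    exact h3
  exact ⟨h1, h2, fun h => h2 (h 7 (by norm_num) (by norm_num)).1⟩

end Pool.Agent.Results.MP_fc29f1_nt.FailsAtSeven
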